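import Pool.Agent.Helper54.R1.Goals

set_option autoImplicit false

namespace Pool.Agent.Helper69.R1

open Real Pool.Agent.Helper66.Kiss Pool.Agent.Helper54.R1

lemma mb (z e : ℝ) (hz : |z| ≤ 1 / 16) (he : |e| ≤ 3 / 256) (i j : ℕ) :
    -((1 / 16 : ℝ) ^ i * (3 / 256) ^ j) ≤ z ^ i * e ^ j ∧
      z ^ i * e ^ j ≤ (1 / 16 : ℝ) ^ i * (3 / 256) ^ j := by
  have h : |z ^ i * e ^ j| ≤ (1 / 16 : ℝ) ^ i * (3 / 256) ^ j := by
    rw [abs_mul, abs_pow, abs_pow]; gcongr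
  exact abs_le.mp h

lemma polPos (z e : ℝ) (hz : |z| ≤ 1 / 16) (he : |e| ≤ 3 / 256) :
    0 ≤ (69/200 : ℝ) - 181613/100000 * (z^0*e^1) + 213661/225000 * (z^0*e^2)
      - 17161/225000 * (z^0*e^3) - 2369/500 * (z^1*e^0) + 881/375 * (z^1*e^1)
      - 131/375 * (z^1*e^2) + 45323/10000 * (z^2*e^0) - 1074241/300000 * (z^2*e^1)
      - 146851/225000 * (z^2*e^2) + 17161/225000 * (z^2*e^3) + 529/500 * (z^3*e^0)
      - 626/375 * (z^3*e^1) + 131/375 * (z^3*e^2) - 15883/10000 * (z^4*e^0)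
      + 31619/15000 * (z^4*e^1) - 2227/7500 * (z^4*e^2) + 17/25 * (z^5*e^0)
      - 17/25 * (z^5*e^1) - 289/1000 * (z^6*e^0) + 289/1000 * (z^6*e^1) := by
  have h01 := mb z e hz he 0 1
  have h02 := mb z e hz he 0 2
  have h03 := mb z e hz he 0 3
  have h10 := mb z e hz he 1 0
  have h11 := mb z e hz he 1 1
  have h12 := mb z e hz he 1 2
  have h20 := mb z e hz he 2 0
  have h21 := mb z e hz he 2 1
  have h22 := mb z e hz he 2 2
  have h23 := mb z e hz he 2 3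
  have h30 := mb z e hz he 3 0
  have h31 := mb z e hz he 3 1
  have h32 := mb z e hz he 3 2
  have h40 := mb z e hz he 4 0
  have h41 := mb z e hz he 4 1
  have h42 := mb z e hz he 4 2
  have h50 := mb z e hz he 5 0
  have h51 := mb z e hz he 5 1
  have h60 := mb z e hz he 6 0
  have h61 := mb z e hz he 6 1
  linarith [h01.1, h01.2, h02.1, h02.2, h03.1, h03.2, h10.1, h10.2, h11.1, h11.2, h12.1, h12.2,
    h20.1, h20.2, h21.1, h21.2, h22.1, h22.2, h23.1, h23.2, h30.1, h30.2, h31.1, h31.2,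
    h32.1, h32.2, h40.1, h40.2, h41.1, h41.2, h42.1, h42.2, h50.1, h50.2, h51.1, h51.2,
    h60.1, h60.2, h61.1, h61.2]

lemma polNeg (z e : ℝ) (hz : |z| ≤ 1 / 16) (he : |e| ≤ 3 / 256) :
    (-69/200 : ℝ) - 255213/100000 * (z^0*e^1) + 475861/225000 * (z^0*e^2)
      - 72361/225000 * (z^0*e^3) - 2231/500 * (z^1*e^0) + 1019/375 * (z^1*e^1)
      - 269/375 * (z^1*e^2) + 49877/10000 * (z^2*e^0) - 947281/300000 * (z^2*e^1)
      - 338671/225000 * (z^2*e^2) + 72361/225000 * (z^2*e^3) + 391/500 * (z^3*e^0)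
      - 764/375 * (z^3*e^1) + 269/375 * (z^3*e^2) - 13537/10000 * (z^4*e^0)
      + 36311/15000 * (z^4*e^1) - 4573/7500 * (z^4*e^2) + 17/25 * (z^5*e^0)
      - 17/25 * (z^5*e^1) - 289/1000 * (z^6*e^0) + 289/1000 * (z^6*e^1) ≤ 0 := by
  have h01 := mb z e hz he 0 1
  have h02 := mb z e hz he 0 2
  have h03 := mb z e hz he 0 3
  have h10 := mb z e hz he 1 0
  have h11 := mb z e hz he 1 1
  have h12 := mb z e hz he 1 2
  have h20 := mb z e hz he 2 0
  have h21 := mb z e hz he 2 1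
  have h22 := mb z e hz he 2 2
  have h23 := mb z e hz he 2 3
  have h30 := mb z e hz he 3 0
  have h31 := mb z e hz he 3 1
  have h32 := mb z e hz he 3 2
  have h40 := mb z e hz he 4 0
  have h41 := mb z e hz he 4 1
  have h42 := mb z e hz he 4 2
  have h50 := mb z e hz he 5 0
  have h51 := mb z e hz he 5 1
  have h60 := mb z e hz he 6 0
  have h61 := mb z e hz he 6 1
  linarith [h01.1, h01.2, h02.1, h02.2, h03.1, h03.2, h10.1, h10.2, h11.1, h11.2, h12.1, h12.2,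
    h20.1, h20.2, h21.1, h21.2, h22.1, h22.2, h23.1, h23.2, h30.1, h30.2, h31.1, h31.2,
    h32.1, h32.2, h40.1, h40.2, h41.1, h41.2, h42.1, h42.2, h50.1, h50.2, h51.1, h51.2,
    h60.1, h60.2, h61.1, h61.2]

lemma polZ (z : ℝ) (hz : |z| ≤ 1 / 16) :
    0 ≤ 3/40 + 99/100 * z - 5433/4000 * z^2 + 51/100 * z^3 - 867/4000 * z^4 := by
  have h := abs_le.mp hz
  have h2 : z ^ 2 ≤ 1 / 256 := by nlinarith [h.1, h.2]
  have h20 : 0 ≤ z ^ 2 := sq_nonneg z
  have h3 : -(1 / 4096) ≤ z ^ 3 := by nlinarith [h.1, h.2]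
  have h4 : z ^ 4 ≤ 1 / 65536 := by nlinarith [h.1, h.2]
  linarith [h.1]

lemma polG (z e τ : ℝ) (hz : |z| ≤ 1 / 16) (he : |e| ≤ 3 / 256) (hτ : τ = F1 z e) :
    3 * (1 / 2 - z / 2 + z * e) ^ 2 ≤
      (1 - 2 * τ + 2 / 5 * τ ^ 2) * (1 - z ^ 2) * (3 / 4 + e - e ^ 2) := by
  have h0 := mul_nonneg (sq_nonneg z) (polZ z hz)
  rcases le_total 0 e with h | h
  · have h1 := mul_nonneg h (polPos z e hz he)
    rw [hτ, F1, abs_of_nonneg h]
    nlinarith [h0, h1]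
  · have h1 := mul_nonneg_of_nonpos_of_nonpos h (polNeg z e hz he)
    rw [hτ, F1, abs_of_nonpos h]
    nlinarith [h0, h1]

lemma tauBd (z e : ℝ) (hz : |z| ≤ 1 / 16) (he : |e| ≤ 3 / 256) : |F1 z e| ≤ 2 / 25 := by
  have h := abs_le.mp hz
  have h2 : z ^ 2 ≤ 1 / 256 := by nlinarith [h.1, h.2]
  have h20 : 0 ≤ z ^ 2 := sq_nonneg z
  have h3 := abs_le.mp he
  have h4 := abs_nonneg e
  rw [F1, abs_le]
  constructor <;> linarith [h.1, h.2, h3.1, h3.2]

/-- **W1.** -/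
theorem w1 : Pool.Agent.Helper54.R1.W1_stmt := by
  intro z e hz he
  set τ := F1 z e with hτ
  have hτb : |τ| ≤ 2 / 25 := tauBd z e hz he
  have hτb' := abs_le.mp hτb
  have hs2 : (0:ℝ) < √2 := by positivity
  have hs22 : √2 * √2 = 2 := Real.mul_self_sqrt (by norm_num)
  have hs3 : (0:ℝ) < √3 := by positivity
  have hs33 : √3 * √3 = 3 := Real.mul_self_sqrt (by norm_num)
  set x := τ / √2 with hx
  have hxτ : √2 * x = τ := by rw [hx]; field_simp
  have hx2 : 2 * x ^ 2 = τ ^ 2 := by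
    rw [← hxτ]; nlinarith [hs22]
  have hs2g : 1 ≤ √2 := by
    rw [show (1:ℝ) = √1 by simp]; exact Real.sqrt_le_sqrt (by norm_num)
  have hxb : |x| ≤ 2 / 25 := by
    rw [hx, abs_div, abs_of_pos hs2, div_le_iff₀ hs2]
    nlinarith [hτb, abs_nonneg τ]
  have hxb' := abs_le.mp hxb
  -- the case of a negative angle is trivial
  by_cases hneg : T0 + x < 0
  · exact le_trans hneg.le (arccos_nonneg _)
  push Not at hneg
  have hT0 : T0 ≤ π / 2 := by
    rw [T0, arccos_le_pi_div_two]; positivity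
  have hpi := Real.pi_gt_three
  have hle : T0 + x ≤ π := by linarith [hxb'.2]
  have hcT : cos T0 = 1 / √3 := by
    rw [T0, cos_arccos]
    · have : (0:ℝ) ≤ 1 / √3 := by positivity
      linarith
    · rw [div_le_one hs3]
      rw [show (1:ℝ) = √1 by simp]; exact Real.sqrt_le_sqrt (by norm_num)
  have hsT : sin T0 = √2 / √3 := by
    rw [T0, sin_arccos]
    rw [← Real.sqrt_div (by norm_num)]
    congr 1
    rw [div_pow, Real.sq_sqrt (by norm_num)]; norm_num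
  -- lower bound of the cosine
  have hcosx : 1 - τ ^ 2 / 4 ≤ cos x := by
    have := Real.one_sub_sq_div_two_le_cos (x := x)
    nlinarith [this, hx2]
  have hsinx : √2 * sin x ≤ τ + τ ^ 2 / 100 := by
    rcases le_total 0 x with h | h
    · have h1 : sin x ≤ x := Real.sin_le h
      have h2 : √2 * sin x ≤ √2 * x := mul_le_mul_of_nonneg_left h1 hs2.le
      rw [hxτ] at h2
      nlinarith [sq_nonneg τ]
    · rcases h.eq_or_lt with h0 | h0
      · have : τ = 0 := by rw [← hxτ, h0]; ring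
        rw [h0, this]; simp
      · have h1 := Real.sin_gt_sub_cube (x := -x) (by linarith)
        rw [Real.sin_neg] at h1
        have h2 : sin x ≤ x - x ^ 3 / 6 := by
          have h22 : (-x) ^ 3 = -(x ^ 3) := by ring
          rw [h22] at h1; linarith
        have h3 : √2 * sin x ≤ √2 * (x - x ^ 3 / 6) := mul_le_mul_of_nonneg_left h2 hs2.le
        have h4 : √2 * (x - x ^ 3 / 6) = τ - τ * x ^ 2 / 6 := by rw [← hxτ]; ring
        have h5 : x ^ 2 = τ ^ 2 / 2 := by linarith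
        rw [h4, h5] at h3
        have h6 : -(2 / 25) ≤ τ := hτb'.1
        nlinarith [sq_nonneg τ, mul_nonneg (sq_nonneg τ) (by linarith : (0:ℝ) ≤ τ + 2 / 25)]
  set R := 1 - τ - 13 / 50 * τ ^ 2 with hR
  have hRle : R ≤ cos x - √2 * sin x := by
    rw [hR]; linarith
  have hτ2 : τ ^ 2 ≤ (2 / 25) ^ 2 := by
    rw [← sq_abs τ]; exact pow_le_pow_left₀ (abs_nonneg τ) hτb 2
  have hRpos : 0 < R := by rw [hR]; nlinarith
  have hR2 : 1 - 2 * τ + 2 / 5 * τ ^ 2 ≤ R ^ 2 := by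
    rw [hR]
    have h7 : 0 ≤ τ ^ 2 * (8 / 100 + 52 / 100 * τ + (13 / 50) ^ 2 * τ ^ 2) := by
      apply mul_nonneg (sq_nonneg τ)
      nlinarith [sq_nonneg τ]
    nlinarith [h7]
  have hz' := abs_le.mp hz
  have he' := abs_le.mp he
  have hz2 : z ^ 2 ≤ 1 / 256 := by nlinarith [hz'.1, hz'.2]
  have he2 : e ^ 2 ≤ (3 / 256) ^ 2 := by
    rw [← sq_abs e]; exact pow_le_pow_left₀ (abs_nonneg e) he 2
  have hA : 0 < 1 - z ^ 2 := by linarith
  have hB : 0 < 1 - (1 / 2 - e) ^ 2 := by nlinarith [he'.1, he'.2]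
  have hPpos : 0 < √(1 - z ^ 2) * √(1 - (1 / 2 - e) ^ 2) := by positivity
  have hP2 : (√(1 - z ^ 2) * √(1 - (1 / 2 - e) ^ 2)) ^ 2 =
      (1 - z ^ 2) * (3 / 4 + e - e ^ 2) := by
    rw [mul_pow, Real.sq_sqrt hA.le, Real.sq_sqrt hB.le]; ring
  have hN : 0 < 1 / 2 - z * (1 / 2 - e) := by
    nlinarith [hz'.1, hz'.2, he'.1, he'.2]
  have hmain : √3 * (1 / 2 - z * (1 / 2 - e)) ≤
      R * (√(1 - z ^ 2) * √(1 - (1 / 2 - e) ^ 2)) := by
    rw [← pow_le_pow_iff_left₀ (by positivity) (by positivity) (two_ne_zero)]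
    rw [mul_pow, mul_pow R, hP2, Real.sq_sqrt (by norm_num)]
    have hG := polG z e τ hz he hτ
    have hC : 0 ≤ (1 - z ^ 2) * (3 / 4 + e - e ^ 2) := by
      rw [← hP2]; positivity
    have h8 := mul_le_mul_of_nonneg_right hR2 hC
    nlinarith [h8, hG]
  have hr : (1 / 2 - z * (1 / 2 - e)) / (√(1 - z ^ 2) * √(1 - (1 / 2 - e) ^ 2)) ≤
      cos (T0 + x) := by
    rw [cos_add, hcT, hsT, div_le_iff₀ hPpos]
    have h9 : 1 / √3 * cos x - √2 / √3 * sin x = (cos x - √2 * sin x) / √3 := by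
      field_simp
    rw [h9, div_mul_eq_mul_div, le_div_iff₀ hs3]
    calc (1 / 2 - z * (1 / 2 - e)) * √3 = √3 * (1 / 2 - z * (1 / 2 - e)) := by ring
      _ ≤ R * (√(1 - z ^ 2) * √(1 - (1 / 2 - e) ^ 2)) := hmain
      _ ≤ _ := mul_le_mul_of_nonneg_right hRle hPpos.le
  have hfin : arccos (cos (T0 + x)) ≤ wd z (1 / 2 - e) := by
    rw [wd]
    exact Real.arccos_le_arccos hr
  rwa [Real.arccos_cos hneg hle] at hfin

end Pool.Agent.Helper69.R1
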